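import Mathlib

/-!
Module F1 of project HP (MP_5ae64c_pr): finite Fourier analysis. A sequence on a window with small
oscillating sums at the nontrivial q-th roots of unity which is almost invariant under shifts by
multiples of q is almost constant.
-/

open scoped BigOperators

namespace Pool.Agent.helper20.HP

/-- Fourier inversion on the residues mod q -/
theorem F1_inv {q : ℕ} {ζ : ℂ} (hζ : IsPrimitiveRoot ζ q) (b : ℕ → ℂ) {c : ℕ} (hc : c < q) :
    ∑ k ∈ Finset.range q, ζ ^ (k * (q - c)) * ∑ d ∈ Finset.range q, ζ ^ (k * d) * b d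
      = q * b c := by
  have h1 : ∑ k ∈ Finset.range q, ζ ^ (k * (q - c)) * ∑ d ∈ Finset.range q, ζ ^ (k * d) * b d
      = ∑ d ∈ Finset.range q, b d * ∑ k ∈ Finset.range q, (ζ ^ (q - c + d)) ^ k := by
    simp only [Finset.mul_sum]
    rw [Finset.sum_comm]
    refine Finset.sum_congr rfl fun d _ => Finset.sum_congr rfl fun k _ => ?_
    rw [← pow_mul, mul_comm (q - c + d) k, mul_add, pow_add]
    ring
  rw [h1, Finset.sum_eq_single c]
  · have : q - c + c = q := by omega
    rw [this, hζ.pow_eq_one]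
    simp [mul_comm]
  · intro d hd hdc
    rw [Finset.mem_range] at hd
    have hne : ζ ^ (q - c + d) ≠ 1 := by
      intro h
      have h2 := (hζ.pow_eq_one_iff_dvd _).mp h
      obtain ⟨m, hm⟩ := h2
      have hm1 : m = 1 := by
        rcases Nat.lt_or_ge m 1 with h3 | h3
        · have : m = 0 := by omega
          subst this; omega
        · rcases Nat.lt_or_ge m 2 with h4 | h4
          · omega
          · have : q * 2 ≤ q * m := Nat.mul_le_mul_left q h4
            omega
      subst hm1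
      omega
    have h3 : (ζ ^ (q - c + d)) ^ q = 1 := by
      rw [← pow_mul, mul_comm, pow_mul, hζ.pow_eq_one, one_pow]
    have h4 : ∑ k ∈ Finset.range q, (ζ ^ (q - c + d)) ^ k = 0 := by
      have h5 := geom_sum_mul (ζ ^ (q - c + d)) q
      rw [h3, sub_self] at h5
      rcases mul_eq_zero.mp h5 with h6 | h6
      · exact h6
      · exact absurd (sub_eq_zero.mp h6) hne
    rw [h4, mul_zero]
  · intro h
    exact absurd (Finset.mem_range.mpr hc) h

/-- sums of a q-periodic sequence over W periods -/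
theorem F1_per {q : ℕ} {z : ℂ} (hz : z ^ q = 1) (b : ℕ → ℂ) (W : ℕ) :
    ∑ y ∈ Finset.range (q * W), z ^ y * b (y % q)
      = W * ∑ d ∈ Finset.range q, z ^ d * b d := by
  induction W with
  | zero => simp
  | succ W ih =>
    rw [Nat.mul_succ, Finset.sum_range_add, ih]
    have : ∑ x ∈ Finset.range q, z ^ (q * W + x) * b ((q * W + x) % q)
        = ∑ d ∈ Finset.range q, z ^ d * b d := by
      refine Finset.sum_congr rfl fun x hx => ?_
      rw [Finset.mem_range] at hx
      rw [pow_add, pow_mul, hz, one_pow, one_mul, Nat.mul_add_mod, Nat.mod_eq_of_lt hx]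
    rw [this]
    push_cast
    ring

/-- bound of the Fourier coefficients of the q-periodic approximation -/
theorem F1_coef {q w : ℕ} (hq : 1 ≤ q) (hw : q ≤ w) {z : ℂ} (hz : z ^ q = 1) (b : ℕ → ℂ)
    (ε Bd : ℝ) (hB : ∀ y < w, ‖b y‖ ≤ Bd)
    (hs : ‖∑ y ∈ Finset.range w, z ^ y * b y‖ ≤ ε * w)
    (hp : ∀ y < w, ‖b y - b (y % q)‖ ≤ ε) :
    ‖∑ d ∈ Finset.range q, z ^ d * b d‖ ≤ 4 * q * ε + 2 * q ^ 2 * Bd / w := by
  have hz1 : ‖z‖ = 1 := Complex.norm_eq_one_of_pow_eq_one hz (by omega)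
  have hBd : 0 ≤ Bd := (norm_nonneg _).trans (hB 0 (by omega))
  have hε : 0 ≤ ε := (norm_nonneg _).trans (hp 0 (by omega))
  set W := w / q with hW
  set ρ := w % q with hρ
  have hwW : q * W + ρ = w := Nat.div_add_mod w q
  have hρq : ρ < q := Nat.mod_lt _ (by omega)
  have hW1 : 1 ≤ W := (Nat.one_le_div_iff (by omega)).mpr hw
  set G := ∑ d ∈ Finset.range q, z ^ d * b d with hG
  have h1 : ∑ y ∈ Finset.range w, z ^ y * b (y % q)
      = W * G + ∑ x ∈ Finset.range ρ, z ^ (q * W + x) * b ((q * W + x) % q) := by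
    conv_lhs => rw [← hwW]
    rw [Finset.sum_range_add, F1_per hz]
  have h2 : ‖∑ x ∈ Finset.range ρ, z ^ (q * W + x) * b ((q * W + x) % q)‖ ≤ q * Bd := by
    calc ‖∑ x ∈ Finset.range ρ, z ^ (q * W + x) * b ((q * W + x) % q)‖
        ≤ ∑ x ∈ Finset.range ρ, Bd := by
          refine norm_sum_le_of_le _ fun x _ => ?_
          rw [norm_mul, norm_pow, hz1, one_pow, one_mul]
          exact hB _ (lt_of_lt_of_le (Nat.mod_lt _ (by omega)) hw)
      _ = ρ * Bd := by simp
      _ ≤ q * Bd := by gcongr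
  have h3 : ‖∑ y ∈ Finset.range w, z ^ y * b y - ∑ y ∈ Finset.range w, z ^ y * b (y % q)‖
      ≤ ε * w := by
    rw [← Finset.sum_sub_distrib]
    calc ‖∑ y ∈ Finset.range w, (z ^ y * b y - z ^ y * b (y % q))‖
        ≤ ∑ y ∈ Finset.range w, ε := by
          refine norm_sum_le_of_le _ fun y hy => ?_
          rw [← mul_sub, norm_mul, norm_pow, hz1, one_pow, one_mul]
          exact hp y (Finset.mem_range.mp hy)
      _ = ε * w := by simp [mul_comm]
  have h4 : ‖(W : ℂ) * G‖ ≤ 2 * ε * w + q * Bd := by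
    have e1 : (W : ℂ) * G = ∑ y ∈ Finset.range w, z ^ y * b y
        - (∑ y ∈ Finset.range w, z ^ y * b y - ∑ y ∈ Finset.range w, z ^ y * b (y % q))
        - ∑ x ∈ Finset.range ρ, z ^ (q * W + x) * b ((q * W + x) % q) := by
      rw [h1]; ring
    rw [e1]
    refine (norm_sub_le _ _).trans ?_
    have := norm_sub_le (∑ y ∈ Finset.range w, z ^ y * b y)
      (∑ y ∈ Finset.range w, z ^ y * b y - ∑ y ∈ Finset.range w, z ^ y * b (y % q))
    linarith
  rw [norm_mul, Complex.norm_natCast] at h4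
  have hwpos : (0 : ℝ) < w := by
    have : 0 < w := by omega
    exact_mod_cast this
  have hwr : (w : ℝ) ≤ 2 * q * W := by
    have h5 : w ≤ 2 * (q * W) := by
      have : q * 1 ≤ q * W := Nat.mul_le_mul_left q hW1
      omega
    have h6 : (w : ℝ) ≤ ((2 * (q * W) : ℕ) : ℝ) := by exact_mod_cast h5
    push_cast at h6
    linarith
  have h7 : (w : ℝ) * ‖G‖ ≤ 2 * q * (2 * ε * w + q * Bd) := by
    calc (w : ℝ) * ‖G‖ ≤ (2 * q * W) * ‖G‖ := by gcongr
      _ = 2 * q * (W * ‖G‖) := by ring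
      _ ≤ 2 * q * (2 * ε * w + q * Bd) := by gcongr
  have h8 : ‖G‖ ≤ 2 * q * (2 * ε * w + q * Bd) / w := by
    rw [le_div_iff₀ hwpos]; linarith
  refine h8.trans (le_of_eq ?_)
  field_simp
  ring

theorem fourier_flat (q : ℕ) (hq : 1 ≤ q) : ∃ C : ℝ, 0 < C ∧ ∀ (a : ℕ → ℝ) (w r : ℕ) (ε Bd : ℝ),
    0 ≤ ε → q ≤ w → (∀ y < w, |a (r + y)| ≤ Bd) →
    (∀ z : ℂ, z ^ q = 1 → z ≠ 1 →
      ‖∑ y ∈ Finset.range w, z ^ (r + y) * ((a (r + y) : ℝ) : ℂ)‖ ≤ ε * w) →
    (∀ y v, 1 ≤ v → y + q * v < w → |a (r + y) - a (r + y + q * v)| ≤ ε) →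
    ∀ y < w, ∀ y' < w, |a (r + y) - a (r + y')| ≤ C * (ε + Bd / w) := by
  refine ⟨2 + 8 * q + 4 * q ^ 2, by positivity, ?_⟩
  intro a w r ε Bd hε hw hB hF hP y hy y' hy'
  have hq0 : q ≠ 0 := by omega
  have hζ := Complex.isPrimitiveRoot_exp q hq0
  set ζ := Complex.exp (2 * Real.pi * Complex.I / q) with hζdef
  let b : ℕ → ℂ := fun y => ((a (r + y) : ℝ) : ℂ)
  have hbB : ∀ y < w, ‖b y‖ ≤ Bd := fun y hy => by
    simp only [b, Complex.norm_real, Real.norm_eq_abs]
    exact hB y hy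
  have hBd : 0 ≤ Bd := (norm_nonneg _).trans (hbB 0 (by omega))
  have hper : ∀ y < w, ‖b y - b (y % q)‖ ≤ ε := fun y hy => by
    simp only [b]
    rw [← Complex.ofReal_sub, Complex.norm_real, Real.norm_eq_abs]
    have e1 : y % q + q * (y / q) = y := Nat.mod_add_div y q
    rcases Nat.eq_zero_or_pos (y / q) with h0 | h0
    · rw [h0, mul_zero, add_zero] at e1
      rw [e1, sub_self, abs_zero]; exact hε
    · have h1 := hP (y % q) (y / q) h0 (by rw [e1]; exact hy)
      rw [add_assoc, e1, abs_sub_comm] at h1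
      exact h1
  set D : ℝ := 4 * q * ε + 2 * q ^ 2 * Bd / w with hD
  have hD0 : 0 ≤ D := by positivity
  have hcoef : ∀ z : ℂ, z ^ q = 1 → z ≠ 1 → ‖∑ d ∈ Finset.range q, z ^ d * b d‖ ≤ D := by
    intro z hz hz1
    refine F1_coef hq hw hz b ε Bd hbB ?_ hper
    have h1 := hF z hz hz1
    have h2 : ∑ y ∈ Finset.range w, z ^ (r + y) * ((a (r + y) : ℝ) : ℂ)
        = z ^ r * ∑ y ∈ Finset.range w, z ^ y * b y := by
      rw [Finset.mul_sum]
      refine Finset.sum_congr rfl fun y _ => ?_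
      rw [pow_add]; simp only [b]; ring
    have hzn : ‖z‖ = 1 := Complex.norm_eq_one_of_pow_eq_one hz hq0
    rw [h2, norm_mul, norm_pow, hzn, one_pow, one_mul] at h1
    exact h1
  have hζn : ‖ζ‖ = 1 := Complex.norm_eq_one_of_pow_eq_one hζ.pow_eq_one hq0
  have hdiff : ∀ c < q, ∀ c' < q, ‖b c - b c'‖ ≤ 2 * D := by
    intro c hc c' hc'
    have h1 : (q : ℂ) * (b c - b c') = ∑ k ∈ Finset.range q,
        (ζ ^ (k * (q - c)) - ζ ^ (k * (q - c'))) * ∑ d ∈ Finset.range q, ζ ^ (k * d) * b d := by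
      rw [mul_sub, ← F1_inv hζ b hc, ← F1_inv hζ b hc', ← Finset.sum_sub_distrib]
      exact Finset.sum_congr rfl fun k _ => by ring
    have h2 : ‖(q : ℂ) * (b c - b c')‖ ≤ q * (2 * D) := by
      rw [h1]
      calc ‖∑ k ∈ Finset.range q,
          (ζ ^ (k * (q - c)) - ζ ^ (k * (q - c'))) * ∑ d ∈ Finset.range q, ζ ^ (k * d) * b d‖
          ≤ ∑ k ∈ Finset.range q, 2 * D := by
            refine norm_sum_le_of_le _ fun k hk => ?_
            rcases Nat.eq_zero_or_pos k with h0 | h0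
            · subst h0
              simp only [zero_mul, pow_zero, sub_self, norm_zero]
              positivity
            · have hk' := Finset.mem_range.mp hk
              have e1 : ‖ζ ^ (k * (q - c)) - ζ ^ (k * (q - c'))‖ ≤ 2 := by
                refine (norm_sub_le _ _).trans ?_
                rw [norm_pow, norm_pow, hζn, one_pow, one_pow]
                norm_num
              have e2 : ζ ^ k ≠ 1 := hζ.pow_ne_one_of_pos_of_lt (by omega) hk'
              have e3 : (ζ ^ k) ^ q = 1 := by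
                rw [← pow_mul, mul_comm, pow_mul, hζ.pow_eq_one, one_pow]
              have e4 := hcoef (ζ ^ k) e3 e2
              simp only [← pow_mul] at e4
              rw [norm_mul]
              exact mul_le_mul e1 e4 (norm_nonneg _) (by norm_num)
        _ = q * (2 * D) := by simp
    rw [norm_mul, Complex.norm_natCast] at h2
    exact le_of_mul_le_mul_left h2 (by positivity)
  have hq' : 0 < q := by omega
  have h1 := hper y hy
  have h2 := hper y' hy'
  have h3 := hdiff (y % q) (Nat.mod_lt _ hq') (y' % q) (Nat.mod_lt _ hq')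
  have h4 : ‖b y - b y'‖ ≤ 2 * ε + 2 * D := by
    have e1 : b y - b y' = (b y - b (y % q)) + (b (y % q) - b (y' % q)) - (b y' - b (y' % q)) := by
      ring
    rw [e1]
    refine (norm_sub_le _ _).trans ?_
    have := norm_add_le (b y - b (y % q)) (b (y % q) - b (y' % q))
    linarith
  have h5 : ‖b y - b y'‖ = |a (r + y) - a (r + y')| := by
    simp only [b]
    rw [← Complex.ofReal_sub, Complex.norm_real, Real.norm_eq_abs]
  rw [← h5]
  refine h4.trans ?_
  have h6 : 0 ≤ Bd / w := by positivity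
  have h7 : 2 * (q : ℝ) ^ 2 * Bd / w = 2 * q ^ 2 * (Bd / w) := by ring
  rw [hD, h7]
  have h8 : 0 ≤ (2 + 8 * (q : ℝ)) * (Bd / w) := by positivity
  have h9 : 0 ≤ 4 * (q : ℝ) ^ 2 * ε := by positivity
  nlinarith

end Pool.Agent.helper20.HP
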