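import Pool.Agent.helper20.HP.Defs3
import Pool.Agent.helper20.HP.S1
import Pool.Agent.helper2.HP.F1

/-!
Module F2 of project HP (MP_5ae64c_pr): flat windows from EQGoal.
-/

open scoped BigOperators Topology
open Filter MeasureTheory

namespace Pool.Agent.helper20.HP

/-- statement of module F0 -/
def ShiftStmt : Prop := ∀ (θ : ℝ), ∃ δ0 : ℕ, 1 ≤ δ0 ∧ ∀ A α ε : ℝ, 0 < α → α ≤ 1 / 4 → 0 < ε →
    ∃ n0 : ℕ,
    ∀ (V : Type) [Fintype V] [DecidableEq V] (K : HW V) (h : ℕ), Par K θ h → n0 ≤ Fintype.card V →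
    (h : ℝ) ≤ (Fintype.card V : ℝ) ^ (1 / 2 - α) →
    ∀ Γ : List V, Γ.Nodup → (Γ.length : ℝ) ≤ A * Nat.sqrt (Fintype.card V) →
    ∀ r v : ℕ, (r : ℝ) ≤ A * Nat.sqrt (Fintype.card V) → 1 ≤ v →
    ((δ0 * v : ℕ) : ℝ) ≤ 2 * (Fintype.card V : ℝ) ^ (1 / 2 - α / 8) →
    |Phi K Γ r - Phi K Γ (r + δ0 * v)| ≤ ε * Nat.sqrt (Fintype.card V)

theorem F2_Phi_le {V : Type} [Fintype V] [DecidableEq V] {K : HW V} {θ : ℝ} {h : ℕ}
    (hP : Par K θ h) (Γ : List V) (hΓ : Γ.Nodup) (r : ℕ) :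
    Phi K Γ r ≤ CP θ * ((Nat.sqrt (Fintype.card V) : ℝ) + r) :=
  le_of_tendsto' (PhiN_tendsto K Γ hΓ r) fun N => phi_bound hP Γ hΓ N r

theorem F2_a_pos (S : Setup) : 0 < S.a := lt_min S.α_pos (by norm_num)

theorem F2_a_le (S : Setup) : S.a ≤ 1 / 4 := min_le_right _ _

theorem F2_wd_tendsto (S : Setup) :
    Tendsto (fun k => wd (Fintype.card (S.V k)) S.a) atTop atTop := by
  have h1 : 0 < 1 / 2 - S.a / 8 := by have := F2_a_le S; linarith
  have h2 : Tendsto (fun k => ((Fintype.card (S.V k) : ℕ) : ℝ)) atTop atTop :=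
    tendsto_natCast_atTop_atTop.comp S.card
  have h3 := (tendsto_rpow_atTop h1).comp h2
  exact tendsto_nat_floor_atTop.comp h3

theorem F2_wd_le (n : ℕ) (α : ℝ) (hn : 1 ≤ n) (hα : 0 ≤ α) : (wd n α : ℝ) ≤ 2 * Nat.sqrt n := by
  have h0 : (0 : ℝ) ≤ (n : ℝ) ^ (1 / 2 - α / 8) := by positivity
  have h1 : (wd n α : ℝ) ≤ (n : ℝ) ^ (1 / 2 - α / 8) := Nat.floor_le h0
  have h2 : (n : ℝ) ^ (1 / 2 - α / 8) ≤ (n : ℝ) ^ ((1 : ℝ) / 2) := by
    refine Real.rpow_le_rpow_of_exponent_le (by exact_mod_cast hn) (by linarith)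
  rw [← Real.sqrt_eq_rpow] at h2
  have h3 := Real.real_sqrt_le_nat_sqrt_succ (a := n)
  have h4 : 1 ≤ Nat.sqrt n := Nat.sqrt_pos.mpr hn
  have h5 : (1 : ℝ) ≤ (Nat.sqrt n : ℝ) := by exact_mod_cast h4
  linarith

theorem flat_of_EQ_of (hsh : ShiftStmt) (hEQ : EQGoal) (S : Setup) (K : ∀ k, HW (S.V k))
    (hK : IsKer S K) (A ε : ℝ) (hε : 0 < ε) : ∀ᶠ k in atTop,
    ∀ Γ : List (S.V k), Γ.Nodup → (Γ.length : ℝ) ≤ A * Nat.sqrt (Fintype.card (S.V k)) →
    ∀ r y : ℕ, (r : ℝ) ≤ A * Nat.sqrt (Fintype.card (S.V k)) → y < wd (Fintype.card (S.V k)) S.a →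
    |Phi (K k) Γ (r + y) - Phi (K k) Γ r| ≤ ε * Nat.sqrt (Fintype.card (S.V k)) := by
  set θ : ℝ := max S.θ 1 with hθ
  obtain ⟨q, hq, hshift⟩ := hsh θ
  obtain ⟨C, hC, hflat⟩ := fourier_flat q hq
  set A' : ℝ := |A| + 2 with hA'
  set ε1 : ℝ := ε / (2 * C) with hε1
  have hε1pos : 0 < ε1 := by positivity
  obtain ⟨n0, hn0⟩ := hshift A' S.a ε1 (F2_a_pos S) (F2_a_le S) hε1pos
  set Q : ℝ := |CP θ| * (3 + |A|) with hQ
  have hQ0 : 0 ≤ Q := by positivity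
  -- roots of unity
  have hfin : {z : ℂ | z ^ q = 1}.Finite := by
    have h1 : {z : ℂ | z ^ q = 1} ⊆ ((Polynomial.nthRoots q (1 : ℂ)).toFinset : Set ℂ) := by
      intro z hz
      simp only [Finset.mem_coe, Multiset.mem_toFinset]
      exact (Polynomial.mem_nthRoots (by omega)).mpr hz
    exact (Finset.finite_toSet _).subset h1
  have evEQ : ∀ᶠ k in atTop, ∀ z ∈ {z : ℂ | z ^ q = 1}, z ≠ 1 →
      ∀ Γ : List (S.V k), Γ.Nodup → (Γ.length : ℝ) ≤ A * Nat.sqrt (Fintype.card (S.V k)) →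
      ∀ r : ℕ, (r : ℝ) ≤ A * Nat.sqrt (Fintype.card (S.V k)) →
        ‖∑ y ∈ Finset.range (wd (Fintype.card (S.V k)) S.a),
            z ^ (r + y) * ((Phi (K k) Γ (r + y) : ℝ) : ℂ)‖
          ≤ ε1 * (wd (Fintype.card (S.V k)) S.a * Nat.sqrt (Fintype.card (S.V k))) := by
    rw [eventually_all_finite hfin]
    intro z hz
    by_cases hz1 : z = 1
    · exact Eventually.of_forall fun k h => absurd hz1 h
    · filter_upwards [hEQ S K hK q z hz hz1 hq A ε1 hε1pos] with k hk _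
      exact hk
  have hwt := F2_wd_tendsto S
  filter_upwards [evEQ, par_eventually S K hK, tmix_small S 1 one_pos, S.card.eventually_ge_atTop n0,
    S.card.eventually_ge_atTop 1, hwt.eventually_ge_atTop q,
    hwt.eventually_ge_atTop (⌈2 * C * Q / ε⌉₊ + 1)] with k h1 hP h3 h4 h5 h6 h7
  intro Γ hΓ hlen r y hr hy
  set n := Fintype.card (S.V k) with hn
  set L := Nat.sqrt n with hL
  set w := wd n S.a with hw
  have hL1 : 1 ≤ L := Nat.sqrt_pos.mpr h5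
  have hL1' : (1 : ℝ) ≤ L := by exact_mod_cast hL1
  have hwL : (w : ℝ) ≤ 2 * L := F2_wd_le n S.a h5 (F2_a_pos S).le
  have hwfl : (w : ℝ) ≤ (n : ℝ) ^ (1 / 2 - S.a / 8) := Nat.floor_le (by positivity)
  rw [one_mul] at h3
  have hAL : A * L ≤ |A| * L := by gcongr; exact le_abs_self A
  have hlen' : (Γ.length : ℝ) ≤ A' * L := by
    rw [hA', add_mul]; linarith
  have hwpos : (0 : ℝ) < w := by
    have : 0 < w := by omega
    exact_mod_cast this
  have key := hflat (Phi (K k) Γ) w r (ε1 * L) (Q * L) (by positivity) h6 ?_ ?_ ?_ y hy 0 (by omega)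
  · rw [add_zero] at key
    refine key.trans ?_
    have h8 : Q * L / w ≤ ε / (2 * C) * L := by
      rw [div_le_iff₀ hwpos]
      have h9 : 2 * C * Q / ε ≤ w := by
        have h10 : (⌈2 * C * Q / ε⌉₊ : ℝ) + 1 ≤ (w : ℝ) := by exact_mod_cast h7
        have h11 := Nat.le_ceil (2 * C * Q / ε)
        linarith
      rw [div_le_iff₀ hε] at h9
      have h12 : Q ≤ ε / (2 * C) * w := by
        rw [div_mul_eq_mul_div, le_div_iff₀ (by positivity)]
        linarith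
      calc Q * L ≤ (ε / (2 * C) * w) * L := by gcongr
        _ = ε / (2 * C) * L * w := by ring
    calc C * (ε1 * L + Q * L / w) ≤ C * (ε1 * L + ε / (2 * C) * L) := by gcongr
      _ = ε * L := by rw [hε1]; field_simp; ring
  · intro y hy
    rw [abs_of_nonneg (Phi_nonneg (K k) Γ _)]
    refine (F2_Phi_le hP Γ hΓ _).trans ?_
    have hy' : (y : ℝ) ≤ w := by exact_mod_cast hy.le
    push_cast
    calc CP θ * ((L : ℝ) + (r + y)) ≤ |CP θ| * ((L : ℝ) + (r + y)) := by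
          gcongr; exact le_abs_self _
      _ ≤ |CP θ| * ((3 + |A|) * L) := by
          gcongr
          linarith
      _ = Q * L := by rw [hQ]; ring
  · intro z hz hz1
    have := h1 z hz hz1 Γ hΓ hlen r hr
    refine this.trans (le_of_eq ?_)
    ring
  · intro y v hv hyv
    have hy' : (y : ℝ) ≤ w := by
      have : y ≤ w := by omega
      exact_mod_cast this
    refine hn0 (S.V k) (K k) (tmix (S.G k) + 1) hP h4 h3 Γ hΓ hlen' (r + y) v ?_ hv ?_
    · push_cast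
      rw [hA', add_mul]; linarith
    · have h8 : q * v ≤ w := by omega
      have h9 : ((q * v : ℕ) : ℝ) ≤ w := by exact_mod_cast h8
      linarith

end Pool.Agent.helper20.HP
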